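import Mathlib
import Pool.Agent.W552.WoEven

/-!
# Weight-monodromy in even weights when restriction and Gysin maps have images spanned by divisors

`D` is the cohomology of the strata of the special fibre of a projective strictly semistable scheme
of any relative dimension `n`. Suppose that the images of the restriction and Gysin maps between
the cohomology groups of even degree of the strata are spanned by classes `L^j x` with `x` the class
of a cycle of codimension `0` or `1`. Then the monodromy-weight conjecture holds for all graded
pieces of even weight, in all degrees. The cohomology of the strata may have any transcendental
classes with algebraic (or zero) restrictions. For `n = 3` the odd weights are known.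
-/

set_option autoImplicit false

namespace Pool.Agent.Results.MP_855f4c_ag.DivisorImages

open Pool.Agent.W522.M Pool.Agent.W552.Wl Pool.Agent.W552.Wo

variable {E : Type} [Field E] [CharZero E]

theorem result {D : Strata E} {n : ℕ} (hD : IsReduction D n) {A : D.Cycles} (hA : A.IsGeometric n)
    (h : EvenImages A) : ∀ w r, 1 ≤ r → Even (w + r) → D.MonodromyWeight w r :=
  fun w r hr hwr => even_images hD hA h w r hr hwr

end Pool.Agent.Results.MP_855f4c_ag.DivisorImages
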