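import Mathlib
import Pool.Agent.W552.WoPerp

/-!
# Weight-monodromy when restriction and Gysin maps have images generated in degrees at most two

`D` is the cohomology of the strata of the special fibre of a projective strictly semistable scheme
of any relative dimension `n`. Suppose that the images of the restriction and Gysin maps between
the strata are spanned by classes `L^j x` with `x` in `H^0`, in `H^1`, or the class of a divisor.
Then the monodromy-weight conjecture holds in all degrees; so does the hard Lefschetz theorem for
the generic fibre, which is not assumed. For `n ≤ 2` the condition is always satisfied.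
-/

set_option autoImplicit false

namespace Pool.Agent.Results.MP_855f4c_ag.LowDegreeImages

open Pool.Agent.W522.M Pool.Agent.W552.Wl Pool.Agent.W552.Wo

variable {E : Type} [Field E] [CharZero E]

theorem result {D : Strata E} {n : ℕ} (hD : IsReduction D n) {A : D.Cycles} (hA : A.IsGeometric n)
    {J : Type} {X : J → Curve D} (hX : ∀ j, (X j).IsGeometric n) (hG : GenerateH1 X)
    (h : ImagesInLowDegrees A) :
    (∀ w r, 1 ≤ r → D.MonodromyWeight w r) ∧ D.GenericLefschetz n :=
  images hD hA hX hG h

end Pool.Agent.Results.MP_855f4c_ag.LowDegreeImages
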