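import Pool.Agent.W522.M.M7

/-!
# The weight-monodromy conjecture for threefolds whose special fibre has simple common eigenvalues

Let `X` be a projective strictly semistable scheme of relative dimension `3` over a henselian
discrete valuation ring, `Y` its special fibre, `Y^(1)` the disjoint union of the components and
`Y^(2)` the disjoint union of the double surfaces. For threefolds the only part of the conjecture
that is not covered by Rapoport and Zink is the bijectivity of
`N : E_2^(-1, 4) → E_2^(1, 2)(-1)` in the weight spectral sequence. We prove it if

* the Tate conjecture for divisors holds on the components (a condition at the eigenvalue `q` only),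
* every eigenvalue other than `q` of Frobenius which occurs both on `H²(Y^(1))` and on `H²(Y^(2))`
  is a simple eigenvalue on `H²(Y^(2))`.

The eigenvalues on `H²(Y^(1))`, the eigenvalues on `H²(Y^(2))`, the geometric genera of the double
surfaces and the rank of `N` are not bounded by these conditions. The first new ingredient is that
the hard Lefschetz theorem for the GENERIC fibre, read on the `E_2`-terms, forces that a simple
common eigenvalue outside the classes of divisors does not contribute to the kernel of `N` (the
intersection form on `H²` of the double surfaces, of which nothing is known outside the classes of
divisors, is not used there); at the eigenvalue `q` the Hodge index theorem is used.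
-/

set_option autoImplicit false

namespace Pool.Agent.Results.MP_855f4c_ag.SimpleThreefolds

open Polynomial Pool.Agent.W522.M

/-- **The weight-monodromy conjecture for threefolds with simple common eigenvalues.**
Let `D` be the cohomology of the strata of the special fibre of a projective strictly semistable
scheme of relative dimension `3`, with coefficients in a field `E` of characteristic zero (`ℚ_ℓ`,
`ℓ` any prime number different from the residue characteristic), and `A` the classes of algebraic
cycles. Suppose that Tate's conjecture holds for divisors on the components, and that the
Frobenius polynomials `P₁` of `H²(Y^(1))` and `P₂` of `H²(Y^(2))` (in `ℤ[T]`, by Deligne) are such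
that every common root `≠ q` is a simple root of `P₂`. Then `N : E_2^(-1, 4) → E_2^(1, 2)(-1)` is
bijective. -/
theorem result {E : Type} [Field E] [CharZero E] {q : ℕ} (hq : q ≠ 0) (D : Strata E)
    (hD : D.IsSemistable 3 q) (A : D.Cycles) (hA : A.IsGeometric 3) (hT : A.TateDivisors q 0)
    (P₁ P₂ : ℤ[X]) (h₁ : (D.frob 0 2).charpoly = P₁.map (Int.castRingHom E))
    (h₂ : (D.frob 1 3).charpoly = P₂.map (Int.castRingHom E))
    (hs : SimpleCommonRoots P₁ P₂ q) : D.MonodromyWeight 3 1 :=
  threefold hq hD A hA hT P₁ P₂ h₁ h₂ hs

end Pool.Agent.Results.MP_855f4c_ag.SimpleThreefolds
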