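import Pool.Agent.W552.WmMain

/-!
# Weight-monodromy when the double surfaces come from a surface satisfying Hodge type

Let `Y` be the special fibre of a projective strictly semistable scheme of relative dimension
`n = s + 3` (or a projective log scheme with simple normal crossings over a log point), and `Y^(m)`
the disjoint union of the `m`-fold intersections of its components. We prove that
`N^(n-2) : E_2^(-(n-2), n) → E_2^(n-2, n)` is bijective, that is, that `N^(n-2)` identifies the
graded pieces of weights `2n - 2` and `2` of `H^n` (for `n = 3` this is the only part of the
monodromy-weight conjecture for threefolds that is not covered by Rapoport and Zink), if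

* `H²` of the threefolds `Y^(n-2)` is generated, up to classes with zero restriction to `Y^(n-1)`,
  by classes of divisors and by the images, under algebraic correspondences, of the transcendental
  part `T` of `H²(S)` for some smooth projective surface `S`, connected or not;
* the standard conjecture of Hodge type holds for the classes in `T ⊗ H²(Y^(n-1))` and `T ⊗ T` on
  the fourfolds `S × Y^(n-1)` and `S × S` (known for example if `S` and the surfaces in `Y^(n-1)`
  are abelian surfaces, by Ancona).

There is no condition on the eigenvalues of Frobenius and their multiplicities, and nothing is used
of the generic fibre.
-/

set_option autoImplicit false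

namespace Pool.Agent.Results.MP_855f4c_ag.SurfaceGenerated

open Pool.Agent.W522.M Pool.Agent.W552.Wm

/-- **Weight-monodromy for the weights `2` and `2n - 2` of `H^n`, if `H²` of the strata is
generated by divisors and a surface.** `D` is the cohomology of the strata of the special fibre,
`A` the classes of algebraic cycles, `S` a surface with its correspondences to the strata. -/
theorem result {E : Type} [Field E] [CharZero E] (s : ℕ) (D : Strata E)
    (hD : IsNormalCrossings D (s + 3)) (A : D.Cycles) (hA : A.IsGeometric (s + 3))
    (S : Surface D s) (hS : S.IsGeometric A) (hH : S.HodgeType) (hG : S.Generates A) :
    D.MonodromyWeight (s + 3) (s + 1) :=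
  main hD A hA S hS hH hG

end Pool.Agent.Results.MP_855f4c_ag.SurfaceGenerated
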